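import Mathlib

/-!
# Project RF: random rate fields on Coxeter groups, definitions

The walk in a field of rates on the edges of the Cayley graph of a Coxeter system, its speed, and
the two random fields of the counterexample.
-/

set_option autoImplicit false

namespace Pool.Agent.Q63.RF

open MeasureTheory ProbabilityTheory Filter Topology
open scoped ENNReal NNReal

/-! ### The walk in a rate field -/

section General

variable {B W : Type} [Fintype B] [Group W] {M : CoxeterMatrix B}

/-- A rate field: `a x i` is the rate of the edge `{x, x * s_i}` of the Cayley graph, so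
`a (x * s_i) i = a x i`. -/
def IsRate (cs : CoxeterSystem M W) (a : W → B → ℝ≥0) : Prop :=
  ∀ x i, a (x * cs.simple i) i = a x i

/-- The total rate of the edges at `x`. -/
def tot (a : W → B → ℝ≥0) (x : W) : ℝ≥0 := ∑ i, a x i

/-- `jumpE cs a f n t x` is the expectation of `f (Z_t)` over the event that the walk makes exactly
`n` jumps up to time `t`, for the walk started at `x` in the rate field `a`: the walk waits at `x`
an exponential time with rate `tot a x` and then crosses an edge at `x`, the edge `{x, x * s_i}`
with the probability `a x i / tot a x`. (First jump decomposition.) -/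
noncomputable def jumpE (cs : CoxeterSystem M W) (a : W → B → ℝ≥0) (f : W → ℝ≥0∞) :
    ℕ → ℝ → W → ℝ≥0∞
  | 0, t, x => ENNReal.ofReal (Real.exp (-((tot a x : ℝ) * t))) * f x
  | n + 1, t, x => ∫⁻ s in Set.Icc (0 : ℝ) t,
      ENNReal.ofReal (Real.exp (-((tot a x : ℝ) * s))) *
        ∑ i, (a x i : ℝ≥0∞) * jumpE cs a f n (t - s) (x * cs.simple i)

/-- The expectation of `f (Z_t)` (over the event of finitely many jumps up to time `t`) for the walk
started at `x` in the rate field `a`. -/
noncomputable def walkE (cs : CoxeterSystem M W) (a : W → B → ℝ≥0) (f : W → ℝ≥0∞) (t : ℝ) (x : W) :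
    ℝ≥0∞ := ∑' n, jumpE cs a f n t x

/-- The walk started at the identity makes finitely many jumps in every bounded time interval. -/
def NonExplosive (cs : CoxeterSystem M W) (a : W → B → ℝ≥0) : Prop :=
  ∀ t : ℝ, 0 ≤ t → walkE cs a (fun _ => 1) t 1 = 1

variable {Ω : Type} [MeasurableSpace Ω]

/-- The annealed expectation of `|Z_t|`. -/
noncomputable def meanLen (cs : CoxeterSystem M W) (P : Measure Ω) (r : Ω → W → B → ℝ≥0) (t : ℝ) :
    ℝ≥0∞ := ∫⁻ ω, walkE cs (r ω) (fun x => (cs.length x : ℝ≥0∞)) t 1 ∂P

/-- The random rate field `r` has the speed `σ`: almost surely the walk is non-explosive, and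
`E |Z_t| / t` tends to `σ`. -/
def HasSpeed (cs : CoxeterSystem M W) (P : Measure Ω) (r : Ω → W → B → ℝ≥0) (σ : ℝ≥0∞) : Prop :=
  (∀ᵐ ω ∂P, NonExplosive cs (r ω)) ∧
    Tendsto (fun t : ℝ => meanLen cs P r t / ENNReal.ofReal t) atTop (𝓝 σ)

/-- A random rate field whose law is invariant under left multiplication. -/
def IsField (cs : CoxeterSystem M W) (P : Measure Ω) (r : Ω → W → B → ℝ≥0) : Prop :=
  (∀ ω, IsRate cs (r ω)) ∧ Measurable r ∧
    ∀ g : W, P.map (fun ω x i => r ω (g * x) i) = P.map r

/-! ### Discrete time -/

/-- One step of the chain in discrete time that jumps from `x` to `x * s_i` with the probability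
`a x i / Λ` and stays at `x` otherwise. -/
noncomputable def stepE (cs : CoxeterSystem M W) (Λ : ℝ≥0) (a : W → B → ℝ≥0) (f : W → ℝ≥0∞)
    (x : W) : ℝ≥0∞ :=
  (((Λ - tot a x) / Λ : ℝ≥0) : ℝ≥0∞) * f x +
    ∑ i, ((a x i / Λ : ℝ≥0) : ℝ≥0∞) * f (x * cs.simple i)

/-- The annealed mean of the distance after `N` steps. -/
noncomputable def meanN (cs : CoxeterSystem M W) (Λ : ℝ≥0) (P : Measure Ω)
    (r : Ω → W → B → ℝ≥0) (N : ℕ) : ℝ≥0∞ :=
  ∫⁻ ω, (stepE cs Λ (r ω))^[N] (fun x => (cs.length x : ℝ≥0∞)) 1 ∂P

/-- A random rate field, bounded by `Λ`, with transformations `T g` of the probability space that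
shift the field. -/
structure Sys (cs : CoxeterSystem M W) (P : Measure Ω) (r : Ω → W → B → ℝ≥0) (Λ : ℝ≥0)
    (T : W → Ω → Ω) : Prop where
  pos : 0 < Λ
  rate : ∀ ω, IsRate cs (r ω)
  meas : ∀ x i, Measurable fun ω => r ω x i
  bdd : ∀ ω x, tot (r ω) x ≤ Λ
  pres : ∀ g, MeasurePreserving (T g) P P
  inv : ∀ g ω, T g (T g⁻¹ ω) = ω
  equi : ∀ g ω x i, r (T g ω) x i = r ω (g * x) i

end General

/-! ### The groups -/

section Groups

variable (n d : ℕ)

/-- The generators: `inl (τ, j)`, the `j`-th generator of the elementary abelian group of type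
`τ ∈ {1, -1}`, and `inr k`, the `k`-th generator of the free product. -/
abbrev Gen : Type := (ℤˣ × Fin n) ⊕ Fin d

/-- The entries of the Coxeter matrix of `(K₁ * K₋₁) × F` (`0` stands for infinity). -/
def entry : Gen n d → Gen n d → ℕ
  | .inl p, .inl q => if p.1 = q.1 then (if p.2 = q.2 then 1 else 2) else 0
  | .inl _, .inr _ => 2
  | .inr _, .inl _ => 2
  | .inr k, .inr l => if k = l then 1 else 0

/-- The Coxeter matrix of the group `W = (K₁ * K₋₁) × F`, where `K₁` and `K₋₁` are elementary
abelian of order `2 ^ n` and `F` is the free product of `d` groups of order two. -/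
def MW : CoxeterMatrix (Gen n d) where
  M := Matrix.of (entry n d)
  isSymm := by
    ext x y
    rcases x with p | k <;> rcases y with q | l <;>
      simp [entry, Matrix.transpose, eq_comm]
  diagonal := by
    intro x
    rcases x with p | k <;> simp [entry]
  off_diagonal := by
    intro x y h
    rcases x with p | k <;> rcases y with q | l
    · simp only [Matrix.of_apply, entry]
      by_cases h1 : p.1 = q.1
      · by_cases h2 : p.2 = q.2
        · exact absurd (congrArg Sum.inl (Prod.ext h1 h2)) h
        · simp [h1, h2]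
      · simp [h1]
    · simp [entry]
    · simp [entry]
    · simp only [Matrix.of_apply, entry]
      by_cases h1 : k = l
      · exact absurd (congrArg Sum.inr h1) h
      · simp [h1]

/-- The Coxeter matrix of the free product `F` of `d` groups of order two. -/
def MF : CoxeterMatrix (Fin d) where
  M := Matrix.of fun k l => if k = l then 1 else 0
  isSymm := by
    ext x y
    simp [Matrix.transpose, eq_comm]
  diagonal := by intro x; simp
  off_diagonal := by intro x y h; simp [h]

/-- The group `W = (K₁ * K₋₁) × F`. -/
abbrev WG : Type := (MW n d).Group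

/-- The group `F`. -/
abbrev FG : Type := (MF d).Group

/-- the Coxeter system of `W` -/
abbrev csW : CoxeterSystem (MW n d) (WG n d) := (MW n d).toCoxeterSystem

/-- the Coxeter system of `F` -/
abbrev csF : CoxeterSystem (MF d) (FG d) := (MF d).toCoxeterSystem

variable {n d}

/-- the generator `(τ, j)` of `W` -/
noncomputable def ga (τ : ℤˣ) (j : Fin n) : WG n d := (csW n d).simple (.inl (τ, j))

/-- the generator `k` of `F` as an element of `W` -/
noncomputable def gs (k : Fin d) : WG n d := (csW n d).simple (.inr k)

/-- the generator `k` of `F` -/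
noncomputable def gf (k : Fin d) : FG d := (csF d).simple k

theorem liftable_prF : (MW n d).IsLiftable
    (fun x : Gen n d => match x with | .inl _ => (1 : FG d) | .inr k => gf k) := by
  intro x y
  rcases x with p | k <;> rcases y with q | l
  · simp
  · change (1 * gf l) ^ 2 = 1
    rw [one_mul]
    exact (csF d).simple_sq l
  · change (gf k * 1) ^ 2 = 1
    rw [mul_one]
    exact (csF d).simple_sq k
  · change (gf k * gf l) ^ (if k = l then 1 else 0) = 1
    by_cases h : k = l
    · rw [if_pos h, h, pow_one]
      exact (csF d).simple_mul_simple_self l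
    · rw [if_neg h, pow_zero]

/-- The projection of `W` to `F`. -/
noncomputable def prF : WG n d →* FG d := (csW n d).lift ⟨_, liftable_prF⟩

theorem liftable_chi : (MF d).IsLiftable (fun _ : Fin d => (-1 : ℤˣ)) := by
  intro k l
  change ((-1 : ℤˣ) * -1) ^ _ = 1
  simp

/-- The parity of the elements of `F`: `-1` on the generators. -/
noncomputable def chi : FG d →* ℤˣ := (csF d).lift ⟨_, liftable_chi⟩

/-! ### The two fields -/

/-- The sample space: a sign and a subset of `F`. -/
abbrev Om (d : ℕ) : Type := ℤˣ × (FG d → Bool)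

/-- The rate of the edges of type `(τ, j)` in the layer `β`: these edges are open with the rate `ρ`
if `τ` is the type of the layer. -/
noncomputable def rateA (ρ : ℝ≥0) (ω : Om d) (β : FG d) (τ : ℤˣ) : ℝ≥0 :=
  if τ = ω.1 * chi β then ρ else 0

/-- The smaller field: the edge `{β, β s_k}` of the tree is open iff its endpoint far from the
identity, which is `c β k`, belongs to the random set. -/
noncomputable def fieldOne (ρ : ℝ≥0) (c : FG d → Fin d → FG d) (ω : Om d) (x : WG n d) :
    Gen n d → ℝ≥0
  | .inl p => rateA ρ ω (prF x) p.1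
  | .inr k => if ω.2 (c (prF x) k) = true then 1 else 0

/-- The larger field: the edge `{β, β s_k}` of the tree is open iff one of its endpoints belongs
to the random set. -/
noncomputable def fieldTwo (ρ : ℝ≥0) (ω : Om d) (x : WG n d) : Gen n d → ℝ≥0
  | .inl p => rateA ρ ω (prF x) p.1
  | .inr k => if ω.2 (prF x) = true ∨ ω.2 (prF x * gf k) = true then 1 else 0

/-- The Bernoulli measure with `P (true) = ε`. -/
noncomputable def bern (ε : ℝ≥0) : Measure Bool :=
  (ε : ℝ≥0∞) • Measure.dirac true + ((1 - ε : ℝ≥0) : ℝ≥0∞) • Measure.dirac false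

/-- A fair sign. -/
noncomputable def coin : Measure ℤˣ :=
  (2⁻¹ : ℝ≥0∞) • Measure.dirac 1 + (2⁻¹ : ℝ≥0∞) • Measure.dirac (-1)

/-- The probability measure on the sample space. -/
noncomputable def PP (d : ℕ) (ε : ℝ≥0) : Measure (Om d) :=
  coin.prod (Measure.infinitePi fun _ : FG d => bern ε)

end Groups

end Pool.Agent.Q63.RF
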