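import Pool.Agent.Q63.RF.Speed

/-!
# Project RF: the conclusion from the lemmas
-/

set_option autoImplicit false

namespace Pool.Agent.Q63.RF

open MeasureTheory ProbabilityTheory Filter Topology
open scoped ENNReal NNReal

/-- The assertion. -/
def S_FIN : Prop :=
  ∃ (B W Ω : Type) (_ : Fintype B) (_ : Group W) (_ : MeasurableSpace Ω) (M : CoxeterMatrix B)
    (cs : CoxeterSystem M W) (P : Measure Ω) (_ : IsProbabilityMeasure P)
    (r₁ r₂ : Ω → W → B → ℝ≥0) (σ₁ σ₂ : ℝ≥0∞),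
    IsField cs P r₁ ∧ IsField cs P r₂ ∧ (∀ ω x i, r₁ ω x i ≤ r₂ ω x i) ∧
    HasSpeed cs P r₁ σ₁ ∧ HasSpeed cs P r₂ σ₂ ∧ σ₂ < σ₁ ∧ σ₁ ≠ ∞

theorem meanN_le_one_aux {u : ℕ → ℝ≥0∞} {s : ℝ≥0∞} (hu : ∀ N : ℕ, u N ≤ N)
    (h : Tendsto (fun N : ℕ => u N / N) atTop (𝓝 s)) : s ≤ 1 := by
  refine le_of_tendsto h ?_
  filter_upwards [eventually_gt_atTop 0] with N hN
  rw [ENNReal.div_le_iff_le_mul (Or.inl (by exact_mod_cast hN.ne'))
      (Or.inl (ENNReal.natCast_ne_top N)), one_mul]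
  exact hu N

theorem low_aux {u : ℕ → ℝ≥0∞} {s : ℝ≥0∞} {L : ℝ} (hL : 0 ≤ L)
    (hu : ∀ N : ℕ, ENNReal.ofReal (L * N) ≤ u N)
    (h : Tendsto (fun N : ℕ => u N / N) atTop (𝓝 s)) : ENNReal.ofReal L ≤ s := by
  refine ge_of_tendsto h ?_
  filter_upwards [eventually_gt_atTop 0] with N hN
  rw [ENNReal.le_div_iff_mul_le (Or.inl (by exact_mod_cast hN.ne'))
      (Or.inl (ENNReal.natCast_ne_top N))]
  refine le_trans ?_ (hu N)
  rw [← ENNReal.ofReal_natCast N, ← ENNReal.ofReal_mul hL]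

theorem up_aux {u : ℕ → ℝ≥0∞} {s : ℝ≥0∞} {L C L' : ℝ} (hL : 0 ≤ L') (hLL : L < L')
    (hu : ∀ N : ℕ, u N ≤ ENNReal.ofReal (C + L * N))
    (h : Tendsto (fun N : ℕ => u N / N) atTop (𝓝 s)) : s ≤ ENNReal.ofReal L' := by
  refine le_of_tendsto h ?_
  have h1 : ∀ᶠ N : ℕ in atTop, C / (L' - L) < (N : ℝ) :=
    (tendsto_natCast_atTop_atTop (R := ℝ)).eventually_gt_atTop _
  filter_upwards [eventually_gt_atTop 0, h1] with N hN hN2
  rw [ENNReal.div_le_iff_le_mul (Or.inl (by exact_mod_cast hN.ne'))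
      (Or.inl (ENNReal.natCast_ne_top N))]
  refine le_trans (hu N) ?_
  rw [← ENNReal.ofReal_natCast N, ← ENNReal.ofReal_mul hL]
  apply ENNReal.ofReal_le_ofReal
  rw [div_lt_iff₀ (by linarith)] at hN2
  nlinarith

theorem fin_aux (hSP : S_SPEED) (hSU : S_SUB) (hT : S_TREE) (hM : S_MEAS) (hSY : S_SYS)
    (hL : S_LOW) (hU : S_UP) (n d : ℕ) (hn : n = 20) (hd : d = 10000) :
    S_FIN := by
  obtain ⟨c, e, hce, hinj, hne⟩ := hT d
  have hdr : (d : ℝ) = 10000 := by rw [hd]; norm_num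
  have hnr : (n : ℝ) = 20 := by rw [hn]; norm_num
  obtain ⟨ε, hεr⟩ : ∃ ε : ℝ≥0, (ε : ℝ) = 1 / 100000 := ⟨⟨1 / 100000, by norm_num⟩, rfl⟩
  have hε1 : ε ≤ 1 := by
    rw [← NNReal.coe_le_coe, hεr]
    norm_num
  obtain ⟨ρ, hρr⟩ : ∃ ρ : ℝ≥0, (ρ : ℝ) = 20 := ⟨⟨20, by norm_num⟩, rfl⟩
  have hρ : 0 < ρ := by
    rw [← NNReal.coe_pos, hρr]
    norm_num
  obtain ⟨hprob, -, -⟩ := hM d ε hε1
  obtain ⟨hs1, hs2⟩ := hSY n d ρ ε (by omega) hρ hε1
  have hs1 := hs1 c e hce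
  obtain ⟨hf1, s1, ht1, hsp1⟩ := hSP _ _ _ _ (csW n d) (PP d ε) _ _ _ hs1
  obtain ⟨hf2, s2, ht2, hsp2⟩ := hSP _ _ _ _ (csW n d) (PP d ε) _ _ _ hs2
  have hlow := hL n d ρ ε (by omega) hρ hε1 c e hce hinj hne
  have hup := hU n d ρ ε (by omega) hρ hε1
  -- lower bound
  have hl : ENNReal.ofReal (0.69 / 10400) ≤ s1 := by
    refine low_aux (by norm_num) (fun N => le_trans ?_ (hlow N)) ht1
    apply ENNReal.ofReal_le_ofReal
    apply mul_le_mul_of_nonneg_right _ (Nat.cast_nonneg N)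
    have hb := one_add_mul_le_pow (a := (-(ε : ℝ))) (by rw [hεr]; norm_num) (2 * (d - 1))
    rw [← sub_eq_add_neg] at hb
    have hk : ((2 * (d - 1) : ℕ) : ℝ) ≤ 20000 := by
      have : 2 * (d - 1) ≤ 20000 := by omega
      exact_mod_cast this
    have hb2 : (0.8 : ℝ) ≤ (1 - (ε : ℝ)) ^ (2 * (d - 1)) := by
      refine le_trans ?_ hb
      rw [hεr]
      generalize ((2 * (d - 1) : ℕ) : ℝ) = q at hk
      linarith
    generalize (1 - (ε : ℝ)) ^ (2 * (d - 1)) = p at hb2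
    rw [hεr, hdr, hρr, hnr]
    norm_num
    linarith
  have hu : s2 ≤ ENNReal.ofReal (0.361 / 10400) := by
    refine up_aux (by norm_num) ?_ hup ht2
    rw [hεr, hdr, hρr, hnr]
    norm_num
  have hlt : s2 < s1 := by
    refine lt_of_le_of_lt hu (lt_of_lt_of_le ?_ hl)
    rw [ENNReal.ofReal_lt_ofReal_iff (by norm_num)]
    norm_num
  have hs1top : s1 ≠ ∞ :=
    ne_top_of_le_ne_top ENNReal.one_ne_top
      (meanN_le_one_aux (hSU _ _ _ _ (csW n d) (PP d ε) _ _ _ hs1).1 ht1)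
  have hΛ : (n : ℝ≥0) * ρ + d ≠ 0 := by
    have h1 : 0 < (n : ℝ≥0) * ρ := mul_pos (by exact_mod_cast (by omega : 0 < n)) hρ
    exact (add_pos_of_pos_of_nonneg h1 zero_le).ne'
  refine ⟨_, _, _, inferInstance, inferInstance, inferInstance, _, csW n d, PP d ε, hprob,
    fieldOne ρ c, fieldTwo ρ, _, _, hf1, hf2, ?_, hsp1, hsp2, ?_, ?_⟩
  · intro ω x i
    rcases i with p | k
    · exact le_refl _
    · simp only [fieldOne, fieldTwo]
      split_ifs with h1 h2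
      · exact le_refl _
      · exfalso
        apply h2
        rcases hce.mem (prF x) k with h3 | h3
        · left; rw [← h3]; exact h1
        · right; rw [← h3]; exact h1
      · exact zero_le
      · exact le_refl _
  · exact ENNReal.mul_lt_mul_right (by exact_mod_cast hΛ) ENNReal.coe_ne_top hlt
  · exact ENNReal.mul_ne_top ENNReal.coe_ne_top hs1top

end Pool.Agent.Q63.RF
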