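import Pool.Agent.Q63.RF.St

/-!
# Project RF: the speed exists
-/

set_option autoImplicit false

namespace Pool.Agent.Q63.RF

open MeasureTheory ProbabilityTheory Filter Topology
open scoped ENNReal NNReal

section

variable {B W : Type} [Fintype B] [Group W] {M : CoxeterMatrix B}

theorem step_one (cs : CoxeterSystem M W) {Λ : ℝ≥0} (hΛ : 0 < Λ) {a : W → B → ℝ≥0}
    (h : ∀ x, tot a x ≤ Λ) : stepE cs Λ a (fun _ => 1) = fun _ => 1 := by
  funext x
  unfold stepE
  simp only [mul_one]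
  rw [← ENNReal.ofNNReal_finsetSum, ← ENNReal.coe_add, ← Finset.sum_div, ← add_div]
  have h1 : ∑ i, a x i = tot a x := rfl
  rw [h1, tsub_add_cancel_of_le (h x), div_self hΛ.ne', ENNReal.coe_one]

theorem iter_one (cs : CoxeterSystem M W) {Λ : ℝ≥0} (hΛ : 0 < Λ) {a : W → B → ℝ≥0}
    (h : ∀ x, tot a x ≤ Λ) (N : ℕ) : (stepE cs Λ a)^[N] (fun _ => 1) = fun _ => 1 := by
  induction N with
  | zero => rfl
  | succ N ih => rw [Function.iterate_succ_apply', ih, step_one cs hΛ h]

theorem tsum_pw (Λ : ℝ≥0) {t : ℝ} (ht : 0 ≤ t) : ∑' N : ℕ, pw Λ t N = 1 := by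
  unfold pw
  have h0 : 0 ≤ (Λ : ℝ) * t := mul_nonneg Λ.2 ht
  have h1 : HasSum (fun N : ℕ => Real.exp (-((Λ : ℝ) * t)) * ((Λ : ℝ) * t) ^ N / N.factorial)
      (Real.exp (-((Λ : ℝ) * t)) * Real.exp ((Λ : ℝ) * t)) := by
    have h2 := (NormedSpace.expSeries_div_hasSum_exp (𝔸 := ℝ) ((Λ : ℝ) * t)).mul_left
      (Real.exp (-((Λ : ℝ) * t)))
    rw [← Real.exp_eq_exp_ℝ] at h2
    simpa only [mul_div_assoc] using h2
  rw [← Real.exp_add, neg_add_cancel, Real.exp_zero] at h1
  rw [← ENNReal.ofReal_tsum_of_nonneg (fun N => by positivity) h1.summable, h1.tsum_eq,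
    ENNReal.ofReal_one]

variable {Ω : Type} [MeasurableSpace Ω]

theorem measurable_iter (cs : CoxeterSystem M W) (Λ : ℝ≥0) (r : Ω → W → B → ℝ≥0)
    (hr : ∀ x i, Measurable fun ω => r ω x i) (f : W → ℝ≥0∞) (N : ℕ) :
    ∀ x, Measurable fun ω => (stepE cs Λ (r ω))^[N] f x := by
  induction N with
  | zero =>
    intro x
    exact measurable_const
  | succ N ih =>
    intro x
    have h1 : (fun ω => (stepE cs Λ (r ω))^[N + 1] f x) = fun ω =>
        (((Λ - tot (r ω) x) / Λ : ℝ≥0) : ℝ≥0∞) * (stepE cs Λ (r ω))^[N] f x +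
        ∑ i, ((r ω x i / Λ : ℝ≥0) : ℝ≥0∞) * (stepE cs Λ (r ω))^[N] f (x * cs.simple i) := by
      funext ω
      rw [Function.iterate_succ_apply']
      rfl
    rw [h1]
    have h2 : Measurable fun ω => tot (r ω) x := by
      unfold tot
      exact Finset.measurable_sum _ fun i _ => hr x i
    refine Measurable.add (Measurable.mul ?_ (ih x)) (Finset.measurable_sum _ fun i _ =>
      Measurable.mul ?_ (ih _))
    · exact ((measurable_const.sub h2).div_const Λ).coe_nnreal_ennreal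
    · exact ((hr x i).div_const Λ).coe_nnreal_ennreal

theorem isField_of_sys (cs : CoxeterSystem M W) (P : Measure Ω)
    (r : Ω → W → B → ℝ≥0) (Λ : ℝ≥0) (T : W → Ω → Ω) (h : Sys cs P r Λ T) : IsField cs P r := by
  have hm : Measurable r := by
    refine measurable_pi_iff.2 fun x => measurable_pi_iff.2 fun i => h.meas x i
  refine ⟨h.rate, hm, fun g => ?_⟩
  have h1 : (fun ω x i => r ω (g * x) i) = r ∘ T g := by
    funext ω x i
    exact (h.equi g ω x i).symm
  rw [h1, ← Measure.map_map hm (h.pres g).measurable, (h.pres g).map_eq]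

end

/-- **S_SPEED.** -/
theorem speed : S_FELL → S_POIS → S_SUB → S_SPEED := by
  intro hF hP hS B W Ω _ _ _ M cs P _ r Λ T h
  refine ⟨isField_of_sys cs P r Λ T h, ?_⟩
  obtain ⟨hN, s, hs⟩ := hS B W Ω M cs P r Λ T h
  refine ⟨s, hs, ?_, ?_⟩
  · filter_upwards with ω
    intro t ht
    rw [hF B W M cs (r ω) Λ h.pos (h.bdd ω) _ t ht]
    simp only [iter_one cs h.pos (h.bdd ω), mul_one]
    exact tsum_pw Λ ht
  · have h1 : ∀ t : ℝ, 0 ≤ t → meanLen cs P r t = ∑' N : ℕ, pw Λ t N * meanN cs Λ P r N := by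
      intro t ht
      unfold meanLen
      have h2 : ∀ ω, walkE cs (r ω) (fun x => (cs.length x : ℝ≥0∞)) t 1 =
          ∑' N : ℕ, pw Λ t N * (stepE cs Λ (r ω))^[N] (fun x => (cs.length x : ℝ≥0∞)) 1 :=
        fun ω => hF B W M cs (r ω) Λ h.pos (h.bdd ω) _ t ht 1
      simp only [h2]
      rw [lintegral_tsum]
      · congr 1
        funext N
        rw [lintegral_const_mul _ (measurable_iter cs Λ r h.meas _ N 1)]
        rfl
      · intro N
        exact ((measurable_iter cs Λ r h.meas _ N 1).const_mul _).aemeasurable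
    have h2 := hP (fun N => meanN cs Λ P r N) s Λ h.pos hN hs
    refine h2.congr' ?_
    filter_upwards [eventually_ge_atTop 0] with t ht
    rw [h1 t ht]

end Pool.Agent.Q63.RF
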