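import Pool.Agent.Q63.RF.Defs

/-!
# Project RF: the statements of the lemmas, with their proofs in words
-/

set_option autoImplicit false

namespace Pool.Agent.Q63.RF

open MeasureTheory ProbabilityTheory Filter Topology
open scoped ENNReal NNReal

/-- the weights of the Poisson distribution with mean `Λ t` -/
noncomputable def pw (Λ : ℝ≥0) (t : ℝ) (N : ℕ) : ℝ≥0∞ :=
  ENNReal.ofReal (Real.exp (-((Λ : ℝ) * t)) * ((Λ : ℝ) * t) ^ N / N.factorial)

/-- **S_FELL** (uniformization). Proof. Write `q = tot a x`, and `κ x = (Λ - q)/Λ` (for real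
numbers `1 - q/Λ`). For `n N : ℕ` let `K n N x` be the expectation of `f` of the chain in discrete
time after `N` steps over the event that exactly `n` of them are crossings:
`K 0 N x = κ x ^ N * f x`, `K (n+1) 0 x = 0`,
`K n (N+1) x = κ x * K n N x + [n ≥ 1] ∑ i, (a x i / Λ) * K (n-1) N (x s_i)`.
Then (1) `∑' n, K n N x = (stepE cs Λ a)^[N] f x` by induction on `N` (use
`Function.iterate_succ_apply'`), (2) unrolling: `K (n+1) N x = ∑_{j+k+1=N} κ x ^ j *
∑ i, (a x i / Λ) * K n k (x s_i)` by induction on `N`. (3) `jumpE cs a f n t x =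
∑' N, pw Λ t N * K n N x` by induction on `n` (for all `t ≥ 0`, `x`): for `n = 0`,
`exp (-q t) = exp (-Λ t) * exp ((Λ - q) t)` (series of `exp`, all terms are `≥ 0`); for `n + 1`,
exchange the integral with the sums (`lintegral_tsum`, `lintegral_finset_sum`; all terms are
measurable and `≥ 0`), so that with (2) it is enough that
`∫ s in 0..t, exp (-q s) * pw Λ (t-s) k * Λ = ∑' j, κ ^ j * pw Λ t (j+k+1)`; this follows from
`exp (-q s) = exp (-Λ s) ∑' j, (κ Λ s)^j / j!` and
`∫ s in 0..t, s^j (t-s)^k = j! k! t^(j+k+1) / (j+k+1)!` (by induction, or the Beta integral; or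
prove instead that the derivative in `t` of the right-hand side is right). Then sum over `n` and
exchange the sums (`ENNReal.tsum_comm`). Another way: show that the right-hand side `G t x` of the
assertion satisfies the integral equation of the first jump, so `∑_{n < m} jumpE n ≤ G`, and that
the difference is at most the same with `f` on the event of at least `m` jumps. -/
def S_FELL : Prop := ∀ (B W : Type) [Fintype B] [Group W] (M : CoxeterMatrix B)
  (cs : CoxeterSystem M W) (a : W → B → ℝ≥0) (Λ : ℝ≥0), 0 < Λ → (∀ x, tot a x ≤ Λ) →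
  ∀ (f : W → ℝ≥0∞) (t : ℝ), 0 ≤ t → ∀ x : W,
    walkE cs a f t x = ∑' N : ℕ, pw Λ t N * (stepE cs Λ a)^[N] f x

/-- **S_POIS.** Proof. `s ≤ 1`. Given `δ > 0` there is `C` with `|u N - s N| ≤ δ N + C` for all `N`
(real numbers, `C = ` the maximum of `N` over the finitely many `N` at which `|u N / N - s| > δ`,
as `u N, s N ≤ N`). As `∑' N, pw Λ t N = 1` and `∑' N, pw Λ t N * N = Λ t` for `t ≥ 0`, the sum
`∑' N, pw Λ t N * u N` differs from `s Λ t` by at most `δ Λ t + C`. Divide by `t`. (One can also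
show the two inequalities `u N ≤ (s + δ) N + C` and `s N ≤ u N + δ N + C` in `ℝ≥0∞`.) -/
def S_POIS : Prop := ∀ (u : ℕ → ℝ≥0∞) (s : ℝ≥0∞) (Λ : ℝ≥0), 0 < Λ → (∀ N : ℕ, u N ≤ N) →
  Tendsto (fun N : ℕ => u N / N) atTop (𝓝 s) →
  Tendsto (fun t : ℝ => (∑' N : ℕ, pw Λ t N * u N) / ENNReal.ofReal t) atTop (𝓝 (Λ * s))

/-- **S_STAT** (the field seen from the walk is stationary). Proof. `W` is countable
(`CoxeterSystem.wordProd_surjective`). For a rate field `a` bounded by `Λ` let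
`G a N x y = (stepE cs Λ a)^[N] (Set.indicator {y} 1) x`. Then (1) `(stepE cs Λ a)^[N] f x =
∑' y, G a N x y * f y` (the operator `stepE` commutes with countable sums and constants),
(2) `G a N x y = G a N y x` (`stepE` is symmetric: `∑' x, g x * stepE f x = ∑' x, stepE g x * f x`,
by the substitution `x ↦ x s_i` and `IsRate`; put `g`, `f` indicators and iterate), (3)
`∑' y, G a N x y = 1` (`stepE 1 = 1`, as `tot ≤ Λ`), (4) if `a' x i = a (g * x) i` for all `x`, `i`
then `G a' N x y = G a N (g x) (g y)`, (5) `G (r ω) N x y` is a measurable function of `ω`. So the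
left-hand side is `∑' y, ∫ G (r ω) N 1 y * φ (T y ω)`; in the summand `y` replace `ω` by
`T y⁻¹ ω` (`Sys.pres`, `MeasurePreserving.lintegral_comp`): by (4) and `Sys.inv` it is
`∫ G (r ω) N y⁻¹ 1 * φ ω` (as `y⁻¹ * 1 = y⁻¹`, `y⁻¹ * y = 1`), by (2) and (3) the sum over `y` is
`∫ φ`. -/
def S_STAT : Prop := ∀ (B W Ω : Type) [Fintype B] [Group W] [MeasurableSpace Ω]
  (M : CoxeterMatrix B) (cs : CoxeterSystem M W) (P : Measure Ω) [IsProbabilityMeasure P]
  (r : Ω → W → B → ℝ≥0) (Λ : ℝ≥0) (T : W → Ω → Ω), Sys cs P r Λ T →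
  ∀ φ : Ω → ℝ≥0∞, Measurable φ → ∀ N : ℕ,
    ∫⁻ ω, (stepE cs Λ (r ω))^[N] (fun x => φ (T x ω)) 1 ∂P = ∫⁻ ω, φ ω ∂P

/-- **S_SUB** (subadditivity). Proof. Let `ℓ x = cs.length x`. `meanN N ≤ N` as
`stepE (fun x => ℓ x) ≤ ℓ + 1` pointwise (`cs.length_mul_le`, `cs.length_simple`), `stepE 1 = 1`.
Let `φ ω = (stepE cs Λ (r ω))^[K] ℓ 1` (measurable). By `Sys.equi`,
`φ (T x ω) = (stepE cs Λ (r ω))^[K] (fun y => ℓ (x⁻¹ * y)) x` (covariance under left
multiplication). As `ℓ y ≤ ℓ x + ℓ (x⁻¹ y)`, `(stepE)^[K] ℓ x ≤ ℓ x + φ (T x ω)`, so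
`(stepE)^[N+K] ℓ 1 = (stepE)^[N] ((stepE)^[K] ℓ) 1 ≤ (stepE)^[N] ℓ 1 +
(stepE)^[N] (fun x => φ (T x ω)) 1`; integrate and use `S_STAT`: `meanN (N+K) ≤ meanN N + meanN K`.
Then `Subadditive.tendsto_lim` for the real numbers `(meanN N).toReal`. -/
def S_SUB : Prop := ∀ (B W Ω : Type) [Fintype B] [Group W] [MeasurableSpace Ω]
  (M : CoxeterMatrix B) (cs : CoxeterSystem M W) (P : Measure Ω) [IsProbabilityMeasure P]
  (r : Ω → W → B → ℝ≥0) (Λ : ℝ≥0) (T : W → Ω → Ω), Sys cs P r Λ T →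
  (∀ N : ℕ, meanN cs Λ P r N ≤ N) ∧
  ∃ s : ℝ≥0∞, Tendsto (fun N : ℕ => meanN cs Λ P r N / N) atTop (𝓝 s)

/-- **S_SPEED.** Proof. `HasSpeed`: by `S_FELL`, `walkE cs (r ω) 1 t 1 = ∑' N, pw Λ t N = 1`
(`stepE 1 = 1`), and `meanLen t = ∑' N, pw Λ t N * meanN N` (exchange of the integral and the sum,
measurability of `ω ↦ (stepE cs Λ (r ω))^[N] f 1`); then `S_POIS`, for `t > 0`. -/
def S_SPEED : Prop := ∀ (B W Ω : Type) [Fintype B] [Group W] [MeasurableSpace Ω]
  (M : CoxeterMatrix B) (cs : CoxeterSystem M W) (P : Measure Ω) [IsProbabilityMeasure P]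
  (r : Ω → W → B → ℝ≥0) (Λ : ℝ≥0) (T : W → Ω → Ω), Sys cs P r Λ T →
  IsField cs P r ∧
  ∃ s : ℝ≥0∞, Tendsto (fun N : ℕ => meanN cs Λ P r N / N) atTop (𝓝 s) ∧
    HasSpeed cs P r (Λ * s)

/-- **S_LYAP** (a function that increases in the mean). Proof. Let `X` be the set of the lists `L`
of pairs `(σ, u)`, `σ : ℤˣ`, `u : Finset (Fin n)` nonempty, with different types `σ` of consecutive
members (`List.IsChain`). The generator `(τ, j)` acts on `X` by
`push (τ, j) ((τ, u) :: L) = if u ∆ {j} = ∅ then L else (τ, u ∆ {j}) :: L` and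
`push (τ, j) L = (τ, {j}) :: L` if `L` is empty or its head has the type `-τ`; the generators
`inr k` act trivially. `push (τ, j)` is an involution, `push (τ, j)` and `push (τ, j')` commute, so
(`CoxeterSystem.lift`) there is a homomorphism `Ψ : W → Perm X` with these values (for
`m = 2`: `(f i * f i')^2 = 1` if `f i`, `f i'` are commuting involutions; for `m = 0` nothing is to
be shown). Put `nf x = Ψ x⁻¹ []`, so `nf (x * s) = push s (nf x)`. Let `wt L = ∑ |u|` over the
members, `α = (1 + 2ρ)⁻¹`, `ζ = 2α/n`; `wt` changes by at most one, so `wt (nf x) ≤ cs.length x`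
(write `x` as a reduced word). Let `G τ [] = 0`, `G τ ((σ, u) :: L) = wt L + (if σ = τ then α else
1 - ζ) |u|` and `g τ x = G τ (nf x)`. `0 ≤ G τ L ≤ wt L`, as `0 ≤ α, 1 - ζ ≤ 1` (`n ≥ 2`).
The inequality, with `1 - α = 2ρα` and `nζ = 2α`: (a) `L = []`: all `n` moves give `α`, the last
term is `0`: total `ρnα`. (b) the head is `(-τ, u)`, `k = |u|`: every move adds the member
`(τ, {j})`, increment `ζk + α`; the last term is `(α - 1 + ζ) k`; total
`ρn(α + ζk) - (1 - α)k + ζk = ρnα + ζk`. (c) the head is `(τ, u)`, `k = |u| ≥ 2`: `n - k` moves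
give `+α`, `k` moves give `-α`, the last term is `(1 - ζ - α) k`; total `ρα(n - 2k) + 2ραk - ζk =
ραn - ζk ≥ ραn - 2α`. (d) the head is `(τ, u)`, `|u| = 1`: `n - 1` moves give `+α`, one move
removes the member: increment `-α - ζk'`, where `k' ≤ n` is the size of the next member (`0` if
there is none; its type is `-τ`); total `ρα(n - 2) - ρζk' + 2ρα - ζ ≥ ρα(n-2) - ζ`. All are at
least `α (ρ (n - 2) - 2)`. -/
def S_LYAP : Prop := ∀ (n d : ℕ) (ρ : ℝ), 2 ≤ n → 0 < ρ → ∃ g : ℤˣ → WG n d → ℝ,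
  (∀ τ x, 0 ≤ g τ x ∧ g τ x ≤ ((csW n d).length x : ℝ)) ∧
  (∀ τ x k, g τ (x * gs k) = g τ x) ∧
  ∀ τ x, (1 + 2 * ρ)⁻¹ * (ρ * (n - 2) - 2) ≤
    ρ * ∑ j : Fin n, (g τ (x * ga τ j) - g τ x) + (g (-τ) x - g τ x)

/-- **S_BLK** (counting blocks). Proof. Let `K τ = Subgroup.closure (Set.range (ga τ))`,
`H = Subgroup.closure (Set.range gs)` (subgroups of `W`). `K τ` is commutative with generators of
order two, so its elements are products of different generators and have length at most `n`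
(for instance: the products `∏ j ∈ u, ga τ j` over `u : Finset (Fin n)` (a commuting product, or a
list product over `u.sort`) are closed under multiplication with generators). `H` commutes with all
`K τ` (entry `2` of the matrix: `(s t)^2 = 1` and `s^2 = t^2 = 1` give `s t = t s`). Let `U τ x` be
the least `m` (`sInf`) such that `x = L.prod * k * b` with a list `L` of length `m` of elements of
`K 1 ∪ K (-1)`, `k ∈ K τ` and `b ∈ H`. Such a representation exists (induction on `x`,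
`CoxeterSystem.simple_induction_right`). The first four properties are immediate (from a
representation of `x` with `m` for `τ` one gets one with `m + 1` for `-τ`). Length: `b = ι β`, where
`ι : F → W` is the homomorphism `gf k ↦ gs k` (`CoxeterSystem.lift`), `prF (ι β) = β`,
`prF` is `1` on `K τ`, so `β = prF x`, and `length (ι β) ≤ length β` (write `β` as a reduced
word). -/
def S_BLK : Prop := ∀ n d : ℕ, ∃ U : ℤˣ → WG n d → ℕ,
  (∀ τ, U τ 1 = 0) ∧
  (∀ τ x j, U τ (x * ga τ j) = U τ x) ∧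
  (∀ τ x k, U τ (x * gs k) = U τ x) ∧
  (∀ τ x, U (-τ) x ≤ U τ x + 1) ∧
  ∀ τ x, (csW n d).length x ≤ n * (U τ x + 1) + (csF d).length (prF x)

/-- `c β k` is the endpoint far from the identity of the edge `{β, β s_k}` of the tree `F`, and `e`
is the action of `F` on the edges, in terms of these endpoints. -/
structure Tree (d : ℕ) (c : FG d → Fin d → FG d) (e : FG d → FG d → FG d) : Prop where
  symm : ∀ β k, c (β * gf k) k = c β k
  mem : ∀ β k, c β k = β ∨ c β k = β * gf k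
  equi : ∀ g β k, c (g * β) k = e g (c β k)
  inv : ∀ g β, e g⁻¹ (e g β) = β
  one : ∀ k, c 1 k = gf k
  two : ∀ k j, j ≠ k → c (gf k) j = gf k * gf j

/-- **S_TREE.** Proof. Let `X` be the set of the lists of elements of `Fin d` without equal
neighbours (`List.IsChain (· ≠ ·)`), `push k L = if L.head? = some k then L.tail else k :: L`, an
involution on `X`; `Ψ : F → Perm X` the homomorphism with `Ψ (gf k) = push k`
(`CoxeterSystem.lift`), `nf β = Ψ β⁻¹ []`, so `nf (β * gf k) = push k (nf β)`. Let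
`c β k = if (nf β).head? = some k then β else β * gf k`. Then the head of `nf (c β k)` is `k`,
`c (β * gf k) k = c β k` (if the head of `nf β` is `k` then the head of `nf (β * gf k)`, its tail,
is not `k`, and `β * gf k * gf k = β`), `nf 1 = []`, `nf (gf k) = [k]`. Let `e g β = β` if
`nf β = []` and `e g β = c (g * β) k` if the head of `nf β` is `k`. For `β' = c β k` (head `k`)
`e g β' = c (g * β') k = c (g * β) k`, as `β' = β` or `β' = β * gf k`. `e g⁻¹ (e g β) = β`: clear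
if `nf β = []`; otherwise `β' = e g β = c (g * β) k` has the head `k`, so
`e g⁻¹ β' = c (g⁻¹ * β') k`, which is `c β k` or `c (β * gf k) k`, hence `c β k = β`. The last
assertions: `nf (gf k) = [k]` shows that `gf` is injective; `chi (gf k * gf j) = 1` and
`chi (gf l) = -1`. -/
def S_TREE : Prop := ∀ d : ℕ, ∃ (c : FG d → Fin d → FG d) (e : FG d → FG d → FG d),
  Tree d c e ∧ Function.Injective (gf (d := d)) ∧ ∀ k j l : Fin d, gf k * gf j ≠ gf l

/-- **S_MEAS.** Proof. (1) clear. (2) `MeasurePreserving.prod` of the map `σ ↦ σ * χ₀` of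
`ℤˣ = {1, -1}` and of the reindexing (`Measure.infinitePi_map_piCongrLeft`, for `e.symm` or `e`).
(3) `Measure.infinitePi_pi` (`prod` of the set with the whole of `ℤˣ`). -/
def S_MEAS : Prop := ∀ (d : ℕ) (ε : ℝ≥0), ε ≤ 1 →
  IsProbabilityMeasure (PP d ε) ∧
  (∀ (χ₀ : ℤˣ) (e : FG d ≃ FG d),
    MeasurePreserving (fun ω : Om d => (ω.1 * χ₀, fun β => ω.2 (e β))) (PP d ε) (PP d ε)) ∧
  ∀ F₁ F₀ : Finset (FG d), Disjoint F₁ F₀ →
    PP d ε {ω | (∀ β ∈ F₁, ω.2 β = true) ∧ ∀ β ∈ F₀, ω.2 β = false} =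
      ((ε ^ F₁.card * (1 - ε) ^ F₀.card : ℝ≥0) : ℝ≥0∞)

/-- **S_SYS.** Proof. The fields are equivariant: `chi` and `prF` are homomorphisms, `Tree.equi`.
`IsRate`: `prF (x * ga τ j) = prF x` (`CoxeterSystem.lift_apply_simple`), `prF (x * gs k) =
prF x * gf k`, `Tree.symm`, `gf k * gf k = 1`. Bound: at most `n` edges `inl` have the rate `ρ`,
the `d` edges `inr` have rates at most one. `pres`: `S_MEAS` with the bijections
`β ↦ e (prF g) β` (inverse `e (prF g)⁻¹`, by `Tree.inv` for `g` and `g⁻¹`) and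
`β ↦ prF g * β`. `inv`: `Tree.inv`, `ω.1 * chi g⁻¹ * chi g = ω.1`. Measurability: the fields
depend on finitely many coordinates. -/
def S_SYS : Prop := ∀ (n d : ℕ) (ρ ε : ℝ≥0), 1 ≤ n → 0 < ρ → ε ≤ 1 →
  (∀ (c : FG d → Fin d → FG d) (e : FG d → FG d → FG d), Tree d c e →
    Sys (csW n d) (PP d ε) (fieldOne ρ c) (n * ρ + d)
      (fun g ω => (ω.1 * chi (prF g), fun β => ω.2 (e (prF g) β)))) ∧
  Sys (csW n d) (PP d ε) (fieldTwo ρ) (n * ρ + d)
    (fun g ω => (ω.1 * chi (prF g), fun β => ω.2 (prF g * β)))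

/-- **S_LOW.** Proof. Let `g` be as in `S_LYAP`, `s = (1 + 2ρ)⁻¹ (ρ (n - 2) - 2)`,
`Λ = n ρ + d`. For `k : Fin d` let `A k` be the event that `ω.2 (gf k) = true` and
`ω.2 (gf j) = ω.2 (gf k * gf j) = false` for all `j ≠ k`. The `A k` are disjoint, with probability
`ε (1 - ε) ^ (2 (d - 1))` (`S_MEAS`, the `2 (d - 1)` elements `gf j`, `gf k * gf j` are different
by the last assertions of `S_TREE`). Let `ω ∈ A k`. Claim: for all `N` and all `x` with
`prF x ∈ {1, gf k}`, `ofReal (g (ω.1 * chi (prF x)) x + N s / Λ) ≤ (stepE ..)^[N] length x`.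
Induction on `N` (`Function.iterate_succ_apply'`): `N = 0` is `g ≤ length`. At `x` the open edges
are `inl (τ, j)` with `τ = ω.1 * chi (prF x)` (rate `ρ`; `prF` does not change) and `inr k` (rate
`1`; `prF x * gf k ∈ {gf k, 1}`; the edges `inr j`, `j ≠ k`, are closed: `c 1 j = gf j`,
`c (gf k) j = gf k * gf j`), and `g (ω.1 * chi (prF (x * gs k))) (x * gs k) =
g (-(ω.1 * chi (prF x))) x`. So `stepE` of the function `g + N s/Λ` is at `x`
`g x + N s/Λ + (1/Λ) (ρ ∑ j (g (x ga τ j) - g x) + (g (-τ) x - g τ x)) ≥ g x + (N+1) s/Λ`. (All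
the values are real; `s` may be negative, then the assertion is trivial.) For `x = 1` it follows
that `(stepE ..)^[N] length 1 ≥ ofReal (N s/Λ)` on `⋃ A k`. Integrate. -/
def S_LOW : Prop := ∀ (n d : ℕ) (ρ ε : ℝ≥0), 2 ≤ n → 0 < ρ → ε ≤ 1 →
  ∀ (c : FG d → Fin d → FG d) (e : FG d → FG d → FG d), Tree d c e →
  Function.Injective (gf (d := d)) → (∀ k j l : Fin d, gf k * gf j ≠ gf l) → ∀ N : ℕ,
  ENNReal.ofReal ((d : ℝ) * ε * (1 - ε) ^ (2 * (d - 1)) *
      ((1 + 2 * (ρ : ℝ))⁻¹ * (ρ * ((n : ℝ) - 2) - 2)) / (n * ρ + d) * N) ≤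
    meanN (csW n d) (n * ρ + d) (PP d ε) (fieldOne ρ c) N

/-- **S_UP.** Proof. Let `U` be as in `S_BLK`, `Λ = n ρ + d`, `t = ω.1 * chi (prF x)` the type of
the layer of `x`; call `x` a centre if `ω.2 (prF x) = true`; let `θ x = t` if `x` is no centre and
`θ x = -t` if it is. Let `V x = n (U (θ x) x + 1) + lengthF (prF x)`, so `length x ≤ V x`,
`V 1 = n`. Let `ψ ω = n * [ω.2 1] * (2 n ρ + #{k | ω.2 (gf k)}) + #{k | ω.2 1 ∨ ω.2 (gf k)}` (as a
function with values in `ℝ≥0∞`). Claim: `stepE V x ≤ V x + ψ (T x ω) / Λ`, `T` as in `S_SYS`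
(second field; `(T x ω).2 1 = ω.2 (prF x)`, `(T x ω).2 (gf k) = ω.2 (prF x * gf k)`). Indeed the
open edges at `x` are: the `n` edges `inl (t, j)` with the rate `ρ`: if `x` is no centre then
`V (x * ga t j) = V x`; if it is one, `U (-t) (x ga t j) ≤ U t (x ga t j) + 1 = U t x + 1 ≤
U (-t) x + 2`, so `V` increases by at most `2n`. The edges `inr k` with `x` or `x * gs k` a centre:
the type of the layer of `x * gs k` is `-t`, so `θ` is the same at both ends if exactly one of them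
is a centre; if both are, `U` increases by at most one; `lengthF` increases by at most one. So
`(stepE)^[N] length 1 ≤ (stepE)^[N] V 1 ≤ V 1 + (1/Λ) ∑_{j < N} (stepE)^[j] (fun x => ψ (T x ω)) 1`;
integrate, use `S_STAT` and `∫ ψ = n ε (2 n ρ + d ε) + d (1 - (1-ε)²) ≤ n ε (2nρ + dε) + 2dε`
(`S_MEAS`; `gf k ≠ 1` because `chi (gf k) = -1`). -/
def S_UP : Prop := ∀ (n d : ℕ) (ρ ε : ℝ≥0), 1 ≤ n → 0 < ρ → ε ≤ 1 → ∀ N : ℕ,
  meanN (csW n d) (n * ρ + d) (PP d ε) (fieldTwo ρ) N ≤
    ENNReal.ofReal (n + (n * ε * (2 * n * ρ + d * ε) + 2 * d * ε) / (n * ρ + d) * N)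

end Pool.Agent.Q63.RF
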