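import Pool.Agent.Q63.RF.Speed

/-!
# Project RF: stationarity of the field seen from the walk, subadditivity
-/

set_option autoImplicit false

namespace Pool.Agent.Q63.RF

open MeasureTheory ProbabilityTheory Filter Topology
open scoped ENNReal NNReal

section

variable {B W : Type} [Fintype B] [Group W] {M : CoxeterMatrix B}

theorem step_tsum (cs : CoxeterSystem M W) (Λ : ℝ≥0) (a : W → B → ℝ≥0) {Y : Type}
    (F : Y → W → ℝ≥0∞) :
    stepE cs Λ a (fun x => ∑' y, F y x) = fun x => ∑' y, stepE cs Λ a (F y) x := by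
  funext x
  unfold stepE
  rw [ENNReal.tsum_add, ENNReal.tsum_mul_left]
  congr 1
  rw [Summable.tsum_finsetSum (fun i _ => ENNReal.summable)]
  refine Finset.sum_congr rfl fun i _ => ?_
  rw [ENNReal.tsum_mul_left]

theorem iter_tsum (cs : CoxeterSystem M W) (Λ : ℝ≥0) (a : W → B → ℝ≥0) {Y : Type} (N : ℕ) :
    ∀ F : Y → W → ℝ≥0∞, (stepE cs Λ a)^[N] (fun x => ∑' y, F y x) =
      fun x => ∑' y, (stepE cs Λ a)^[N] (F y) x := by
  induction N with
  | zero => intro F; rfl
  | succ N ih =>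
    intro F
    rw [Function.iterate_succ_apply, step_tsum, ih]
    rfl

theorem step_mul (cs : CoxeterSystem M W) (Λ : ℝ≥0) (a : W → B → ℝ≥0) (c : ℝ≥0∞)
    (f : W → ℝ≥0∞) :
    stepE cs Λ a (fun x => f x * c) = fun x => stepE cs Λ a f x * c := by
  funext x
  unfold stepE
  rw [add_mul, Finset.sum_mul, mul_assoc]
  congr 1
  refine Finset.sum_congr rfl fun i _ => ?_
  rw [mul_assoc]

theorem iter_mul (cs : CoxeterSystem M W) (Λ : ℝ≥0) (a : W → B → ℝ≥0) (c : ℝ≥0∞) (N : ℕ) :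
    ∀ f : W → ℝ≥0∞, (stepE cs Λ a)^[N] (fun x => f x * c) =
      fun x => (stepE cs Λ a)^[N] f x * c := by
  induction N with
  | zero => intro f; rfl
  | succ N ih =>
    intro f
    rw [Function.iterate_succ_apply, step_mul, ih]
    rfl

theorem step_add (cs : CoxeterSystem M W) (Λ : ℝ≥0) (a : W → B → ℝ≥0) (f g : W → ℝ≥0∞) :
    stepE cs Λ a (fun x => f x + g x) = fun x => stepE cs Λ a f x + stepE cs Λ a g x := by
  funext x
  unfold stepE
  simp only [mul_add, Finset.sum_add_distrib]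
  ring

theorem iter_add (cs : CoxeterSystem M W) (Λ : ℝ≥0) (a : W → B → ℝ≥0) (N : ℕ) :
    ∀ f g : W → ℝ≥0∞, (stepE cs Λ a)^[N] (fun x => f x + g x) =
      fun x => (stepE cs Λ a)^[N] f x + (stepE cs Λ a)^[N] g x := by
  induction N with
  | zero => intro f g; rfl
  | succ N ih =>
    intro f g
    rw [Function.iterate_succ_apply, step_add, ih]
    rfl

theorem step_mono (cs : CoxeterSystem M W) (Λ : ℝ≥0) (a : W → B → ℝ≥0) {f g : W → ℝ≥0∞}
    (h : ∀ x, f x ≤ g x) (x : W) : stepE cs Λ a f x ≤ stepE cs Λ a g x := by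
  unfold stepE
  gcongr with i _
  · exact h x
  · exact h _

theorem iter_mono (cs : CoxeterSystem M W) (Λ : ℝ≥0) (a : W → B → ℝ≥0) (N : ℕ) :
    ∀ f g : W → ℝ≥0∞, (∀ x, f x ≤ g x) → ∀ x, (stepE cs Λ a)^[N] f x ≤ (stepE cs Λ a)^[N] g x := by
  induction N with
  | zero => intro f g h x; exact h x
  | succ N ih =>
    intro f g h x
    rw [Function.iterate_succ_apply, Function.iterate_succ_apply]
    exact ih _ _ (step_mono cs Λ a h) x

theorem iter_shift (cs : CoxeterSystem M W) (Λ : ℝ≥0) (a a' : W → B → ℝ≥0) (g : W)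
    (h : ∀ x i, a' x i = a (g * x) i) (N : ℕ) : ∀ (f : W → ℝ≥0∞) (x : W),
    (stepE cs Λ a')^[N] (fun z => f (g * z)) x = (stepE cs Λ a)^[N] f (g * x) := by
  induction N with
  | zero => intro f x; rfl
  | succ N ih =>
    intro f x
    rw [Function.iterate_succ_apply, Function.iterate_succ_apply, ← ih]
    refine congrFun (congrArg _ (funext fun z => ?_)) x
    unfold stepE
    have h1 : tot a' z = tot a (g * z) := by
      unfold tot
      exact Finset.sum_congr rfl fun i _ => h z i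
    rw [h1]
    congr 1
    refine Finset.sum_congr rfl fun i _ => ?_
    rw [h z i, mul_assoc]

theorem step_symm (cs : CoxeterSystem M W) (Λ : ℝ≥0) (a : W → B → ℝ≥0) (h : IsRate cs a)
    (f g : W → ℝ≥0∞) :
    ∑' x, g x * stepE cs Λ a f x = ∑' x, stepE cs Λ a g x * f x := by
  unfold stepE
  simp only [mul_add, add_mul, Finset.mul_sum, Finset.sum_mul]
  rw [ENNReal.tsum_add, ENNReal.tsum_add]
  congr 1
  · refine tsum_congr fun x => ?_
    ring
  · rw [Summable.tsum_finsetSum (fun i _ => ENNReal.summable),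
      Summable.tsum_finsetSum (fun i _ => ENNReal.summable)]
    refine Finset.sum_congr rfl fun i _ => ?_
    rw [← (Equiv.mulRight (cs.simple i)).tsum_eq]
    refine tsum_congr fun x => ?_
    simp only [Equiv.coe_mulRight]
    rw [h x i, mul_assoc x, cs.simple_mul_simple_self, mul_one]
    ring

theorem iter_symm (cs : CoxeterSystem M W) (Λ : ℝ≥0) (a : W → B → ℝ≥0) (h : IsRate cs a) (N : ℕ) :
    ∀ f g : W → ℝ≥0∞,
    ∑' x, g x * (stepE cs Λ a)^[N] f x = ∑' x, (stepE cs Λ a)^[N] g x * f x := by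
  induction N with
  | zero => intro f g; rfl
  | succ N ih =>
    intro f g
    rw [Function.iterate_succ_apply', Function.iterate_succ_apply, step_symm cs Λ a h, ih]

/-- the transition probabilities -/
noncomputable def G (cs : CoxeterSystem M W) (Λ : ℝ≥0) (a : W → B → ℝ≥0) (N : ℕ) (x y : W) :
    ℝ≥0∞ := (stepE cs Λ a)^[N] (Set.indicator {y} fun _ => 1) x

theorem iter_eq_tsum (cs : CoxeterSystem M W) (Λ : ℝ≥0) (a : W → B → ℝ≥0) (N : ℕ)
    (f : W → ℝ≥0∞) (x : W) : (stepE cs Λ a)^[N] f x = ∑' y, G cs Λ a N x y * f y := by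
  have h1 : f = fun x => ∑' y, Set.indicator {y} (fun _ => (1 : ℝ≥0∞)) x * f y := by
    funext x
    rw [tsum_eq_single x]
    · simp
    · intro y hy
      rw [Set.indicator_of_notMem, zero_mul]
      intro h
      exact hy (Set.mem_singleton_iff.1 h).symm
  conv_lhs => rw [h1]
  rw [iter_tsum]
  simp only [iter_mul]
  rfl

theorem G_symm (cs : CoxeterSystem M W) (Λ : ℝ≥0) (a : W → B → ℝ≥0) (h : IsRate cs a) (N : ℕ)
    (x y : W) : G cs Λ a N x y = G cs Λ a N y x := by
  have h1 := iter_symm cs Λ a h N (Set.indicator {y} fun _ => 1) (Set.indicator {x} fun _ => 1)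
  rw [tsum_eq_single x, tsum_eq_single y] at h1
  · simpa [G] using h1
  · intro z hz
    rw [Set.indicator_of_notMem (s := {y}), mul_zero]
    exact fun h => hz (Set.mem_singleton_iff.1 h)
  · intro z hz
    rw [Set.indicator_of_notMem (s := {x}), zero_mul]
    exact fun h => hz (Set.mem_singleton_iff.1 h)

theorem G_sum (cs : CoxeterSystem M W) {Λ : ℝ≥0} (hΛ : 0 < Λ) {a : W → B → ℝ≥0}
    (h : ∀ x, tot a x ≤ Λ) (N : ℕ) (x : W) : ∑' y, G cs Λ a N x y = 1 := by
  have h1 := iter_eq_tsum cs Λ a N (fun _ => 1) x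
  rw [iter_one cs hΛ h] at h1
  simpa using h1.symm

theorem G_shift (cs : CoxeterSystem M W) (Λ : ℝ≥0) (a a' : W → B → ℝ≥0) (g : W)
    (h : ∀ x i, a' x i = a (g * x) i) (N : ℕ) (x y : W) :
    G cs Λ a' N x y = G cs Λ a N (g * x) (g * y) := by
  unfold G
  rw [← iter_shift cs Λ a a' g h]
  refine congrFun (congrArg _ (funext fun z => ?_)) x
  by_cases hz : z = y
  · rw [hz]; simp
  · rw [Set.indicator_of_notMem, Set.indicator_of_notMem]
    · intro h; exact hz (mul_left_cancel (Set.mem_singleton_iff.1 h))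
    · intro h; exact hz (Set.mem_singleton_iff.1 h)

theorem countable_W (cs : CoxeterSystem M W) : Countable W :=
  cs.wordProd_surjective.countable

end

/-- **S_STAT.** -/
theorem stat : S_STAT := by
  intro B W Ω _ _ _ M cs P _ r Λ T h φ hφ N
  have := countable_W cs
  have hG : ∀ x y, Measurable fun ω => G cs Λ (r ω) N x y := fun x y =>
    measurable_iter cs Λ r h.meas _ N x
  have hT : ∀ y, Measurable fun ω => φ (T y ω) := fun y => hφ.comp (h.pres y).measurable
  simp only [iter_eq_tsum cs Λ (r _) N]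
  rw [lintegral_tsum (f := fun y ω => G cs Λ (r ω) N 1 y * φ (T y ω))
    fun y => ((hG 1 y).mul (hT y)).aemeasurable]
  have h1 : ∀ y, ∫⁻ ω, G cs Λ (r ω) N 1 y * φ (T y ω) ∂P =
      ∫⁻ ω, G cs Λ (r ω) N 1 y⁻¹ * φ ω ∂P := by
    intro y
    have h2 := (h.pres y⁻¹).lintegral_comp ((hG 1 y).mul (hT y))
    simp only [Pi.mul_apply] at h2
    rw [← h2]
    refine lintegral_congr fun ω => ?_
    rw [h.inv, G_shift cs Λ (r ω) (r (T y⁻¹ ω)) y⁻¹ (fun x i => h.equi y⁻¹ ω x i) N,
      mul_one, inv_mul_cancel, G_symm cs Λ _ (h.rate ω)]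
  simp only [h1]
  rw [← lintegral_tsum (f := fun y ω => G cs Λ (r ω) N 1 y⁻¹ * φ ω)
    fun y => ((hG 1 y⁻¹).mul hφ).aemeasurable]
  refine lintegral_congr fun ω => ?_
  have h3 : ∑' y, G cs Λ (r ω) N 1 y⁻¹ = ∑' y, G cs Λ (r ω) N 1 y :=
    (Equiv.inv W).tsum_eq (fun y => G cs Λ (r ω) N 1 y)
  rw [ENNReal.tsum_mul_right, h3, G_sum cs h.pos (h.bdd ω), one_mul]

section

variable {B W : Type} [Fintype B] [Group W] {M : CoxeterMatrix B}

theorem step_len_le (cs : CoxeterSystem M W) {Λ : ℝ≥0} (hΛ : 0 < Λ) {a : W → B → ℝ≥0}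
    (h : ∀ x, tot a x ≤ Λ) (x : W) :
    stepE cs Λ a (fun x => (cs.length x : ℝ≥0∞)) x ≤ (cs.length x : ℝ≥0∞) + 1 := by
  have h1 : ∀ i, (cs.length (x * cs.simple i) : ℝ≥0∞) ≤ (cs.length x : ℝ≥0∞) + 1 := by
    intro i
    have := cs.length_mul_le x (cs.simple i)
    rw [cs.length_simple] at this
    exact_mod_cast this
  have h2 : stepE cs Λ a (fun _ => 1) x = 1 := by rw [step_one cs hΛ h]
  calc stepE cs Λ a (fun x => (cs.length x : ℝ≥0∞)) x
      ≤ (((Λ - tot a x) / Λ : ℝ≥0) : ℝ≥0∞) * ((cs.length x : ℝ≥0∞) + 1) +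
        ∑ i, ((a x i / Λ : ℝ≥0) : ℝ≥0∞) * ((cs.length x : ℝ≥0∞) + 1) := by
        unfold stepE
        gcongr with i _
        · exact le_self_add
        · exact h1 i
    _ = stepE cs Λ a (fun _ => 1) x * ((cs.length x : ℝ≥0∞) + 1) := by
        unfold stepE
        simp only [mul_one, add_mul, Finset.sum_mul]
    _ = _ := by rw [h2, one_mul]

theorem iter_len_le (cs : CoxeterSystem M W) {Λ : ℝ≥0} (hΛ : 0 < Λ) {a : W → B → ℝ≥0}
    (h : ∀ x, tot a x ≤ Λ) (N : ℕ) (x : W) :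
    (stepE cs Λ a)^[N] (fun x => (cs.length x : ℝ≥0∞)) x ≤ (cs.length x : ℝ≥0∞) + N := by
  induction N generalizing x with
  | zero => simp
  | succ N ih =>
    rw [Function.iterate_succ_apply]
    have h1 := iter_mono cs Λ a N _ _ (step_len_le cs hΛ h) x
    rw [iter_add, iter_one cs hΛ h] at h1
    refine h1.trans ?_
    push_cast
    rw [← add_assoc]
    gcongr
    exact ih x

end

/-- **S_SUB.** -/
theorem sub : S_STAT → S_SUB := by
  intro hST B W Ω _ _ _ M cs P _ r Λ T h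
  have hN : ∀ N : ℕ, meanN cs Λ P r N ≤ N := by
    intro N
    unfold meanN
    calc ∫⁻ ω, (stepE cs Λ (r ω))^[N] (fun x => (cs.length x : ℝ≥0∞)) 1 ∂P
        ≤ ∫⁻ _, (N : ℝ≥0∞) ∂P := by
          refine lintegral_mono fun ω => ?_
          have := iter_len_le cs h.pos (h.bdd ω) N 1
          rwa [cs.length_one, Nat.cast_zero, zero_add] at this
      _ = N := by simp
  refine ⟨hN, ?_⟩
  have hsub : ∀ m n, meanN cs Λ P r (m + n) ≤ meanN cs Λ P r m + meanN cs Λ P r n := by
    intro m n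
    set φ : Ω → ℝ≥0∞ := fun ω => (stepE cs Λ (r ω))^[n] (fun x => (cs.length x : ℝ≥0∞)) 1 with hφ
    have hφm : Measurable φ := measurable_iter cs Λ r h.meas _ n 1
    have h1 : ∀ ω x, (stepE cs Λ (r ω))^[n] (fun x => (cs.length x : ℝ≥0∞)) x ≤
        (cs.length x : ℝ≥0∞) + φ (T x ω) := by
      intro ω x
      have h2 : φ (T x ω) = (stepE cs Λ (r ω))^[n]
          (fun y => (cs.length (x⁻¹ * y) : ℝ≥0∞)) x := by
        have h3 := iter_shift cs Λ (r ω) (r (T x ω)) x (fun y i => h.equi x ω y i) n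
          (fun y => (cs.length (x⁻¹ * y) : ℝ≥0∞)) 1
        simp only [inv_mul_cancel_left, mul_one] at h3
        exact h3
      rw [h2]
      have h4 : ∀ y, (cs.length y : ℝ≥0∞) ≤
          (1 : ℝ≥0∞) * (cs.length x : ℝ≥0∞) + (cs.length (x⁻¹ * y) : ℝ≥0∞) := by
        intro y
        rw [one_mul]
        have := cs.length_mul_le x (x⁻¹ * y)
        rw [mul_inv_cancel_left] at this
        exact_mod_cast this
      have h5 := iter_mono cs Λ (r ω) n _ _ h4 x
      rw [iter_add, iter_mul cs Λ (r ω) _ n (fun _ => 1), iter_one cs h.pos (h.bdd ω)] at h5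
      simpa only [one_mul] using h5
    have h6 : ∀ ω, (stepE cs Λ (r ω))^[m + n] (fun x => (cs.length x : ℝ≥0∞)) 1 ≤
        (stepE cs Λ (r ω))^[m] (fun x => (cs.length x : ℝ≥0∞)) 1 +
          (stepE cs Λ (r ω))^[m] (fun x => φ (T x ω)) 1 := by
      intro ω
      rw [Function.iterate_add_apply]
      have := iter_mono cs Λ (r ω) m _ _ (h1 ω) 1
      rwa [iter_add] at this
    calc meanN cs Λ P r (m + n) ≤ ∫⁻ ω, ((stepE cs Λ (r ω))^[m]
          (fun x => (cs.length x : ℝ≥0∞)) 1 + (stepE cs Λ (r ω))^[m] (fun x => φ (T x ω)) 1) ∂P :=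
          lintegral_mono h6
      _ = meanN cs Λ P r m + ∫⁻ ω, (stepE cs Λ (r ω))^[m] (fun x => φ (T x ω)) 1 ∂P :=
          lintegral_add_left (measurable_iter cs Λ r h.meas _ m 1) _
      _ = meanN cs Λ P r m + meanN cs Λ P r n := by
          rw [hST B W Ω M cs P r Λ T h φ hφm m]
          rfl
  have hfin : ∀ N, meanN cs Λ P r N ≠ ∞ := fun N =>
    ne_top_of_le_ne_top (ENNReal.natCast_ne_top N) (hN N)
  set u : ℕ → ℝ := fun N => (meanN cs Λ P r N).toReal with hu
  have hS : Subadditive u := by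
    intro m n
    simp only [hu]
    rw [← ENNReal.toReal_add (hfin m) (hfin n)]
    exact ENNReal.toReal_mono (ENNReal.add_ne_top.2 ⟨hfin m, hfin n⟩) (hsub m n)
  have hbdd : BddBelow (Set.range fun N : ℕ => u N / N) := by
    refine ⟨0, ?_⟩
    rintro _ ⟨N, rfl⟩
    exact div_nonneg ENNReal.toReal_nonneg (Nat.cast_nonneg N)
  have hlim := hS.tendsto_lim hbdd
  refine ⟨ENNReal.ofReal hS.lim, ?_⟩
  have h7 := ENNReal.tendsto_ofReal hlim
  refine h7.congr' ?_
  filter_upwards [eventually_gt_atTop 0] with N hN0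
  rw [ENNReal.ofReal_div_of_pos (by exact_mod_cast hN0), ENNReal.ofReal_toReal (hfin N),
    ENNReal.ofReal_natCast]

end Pool.Agent.Q63.RF
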