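import Pool.Agent.Q63.RF.TreeF

/-!
# Project RF: the two fields are equivariant
-/

set_option autoImplicit false

namespace Pool.Agent.Q63.RF

open MeasureTheory ProbabilityTheory Filter Topology
open scoped ENNReal NNReal

section

variable {n d : ℕ}

theorem prF_inl (p : ℤˣ × Fin n) : prF ((csW n d).simple (.inl p)) = (1 : FG d) :=
  (csW n d).lift_apply_simple liftable_prF (.inl p)

theorem prF_inr (k : Fin d) : prF ((csW n d).simple (.inr k)) = (gf k : FG d) :=
  (csW n d).lift_apply_simple liftable_prF (.inr k)

theorem tot_le_aux (ρ : ℝ≥0) (ω : Om d) (β : FG d) (a : WG n d → Gen n d → ℝ≥0) (x : WG n d)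
    (h1 : ∀ p, a x (.inl p) = rateA ρ ω β p.1) (h2 : ∀ k, a x (.inr k) ≤ 1) :
    tot a x ≤ n * ρ + d := by
  unfold tot
  rw [Fintype.sum_sum_type]
  refine add_le_add ?_ ?_
  · simp only [h1]
    rw [Fintype.sum_prod_type]
    simp only [Finset.sum_const, Finset.card_univ, Fintype.card_fin, nsmul_eq_mul]
    unfold rateA
    simp only [mul_ite, mul_zero]
    rw [Finset.sum_ite_eq' Finset.univ (ω.1 * chi β)]
    split_ifs
    · exact le_refl _
    · exact zero_le
  · calc ∑ k, a x (.inr k) ≤ ∑ _k : Fin d, (1 : ℝ≥0) := Finset.sum_le_sum fun k _ => h2 k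
      _ = d := by simp

theorem msc : MeasurableSingletonClass ℤˣ := by
  refine ⟨fun x => ?_⟩
  refine ⟨{(x : ℤ)}, MeasurableSet.of_discrete, ?_⟩
  ext y
  simp [Units.ext_iff]

theorem meas_rateA (ρ : ℝ≥0) (β : FG d) (τ : ℤˣ) : Measurable fun ω : Om d => rateA ρ ω β τ := by
  unfold rateA
  have := msc
  have h1 : Measurable fun ω : Om d => ω.1 := measurable_fst
  have h2 : MeasurableSet {ω : Om d | τ = ω.1 * chi β} := by
    have : {ω : Om d | τ = ω.1 * chi β} = (fun ω : Om d => ω.1) ⁻¹' {σ | τ = σ * chi β} := rfl
    rw [this]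
    exact h1 (Set.toFinite _).measurableSet
  exact Measurable.ite h2 measurable_const measurable_const

theorem meas_coord (β : FG d) : MeasurableSet {ω : Om d | ω.2 β = true} := by
  have h1 : Measurable fun ω : Om d => ω.2 β := (measurable_pi_apply β).comp measurable_snd
  exact h1 (measurableSet_singleton true)

end

/-- **S_SYS.** -/
theorem sys : S_MEAS → S_SYS := by
  intro hM n d ρ ε hn hρ hε
  obtain ⟨-, hpr, -⟩ := hM d ε hε
  have hpos : 0 < (n : ℝ≥0) * ρ + d :=
    add_pos_of_pos_of_nonneg (mul_pos (by exact_mod_cast (by omega : 0 < n)) hρ) zero_le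
  have hgfsq : ∀ (β : FG d) k, β * gf k * gf k = β := fun β k => by rw [mul_assoc, gf_sq, mul_one]
  refine ⟨fun c e hce => ?_, ?_⟩
  · refine ⟨hpos, ?_, ?_, ?_, ?_, ?_, ?_⟩
    · intro ω x i
      rcases i with p | k
      · simp only [fieldOne, map_mul, prF_inl, mul_one]
      · simp only [fieldOne, map_mul, prF_inr]
        rw [hce.symm]
    · intro x i
      rcases i with p | k
      · exact meas_rateA ρ _ _
      · simp only [fieldOne]
        exact Measurable.ite (meas_coord _) measurable_const measurable_const
    · intro ω x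
      refine tot_le_aux ρ ω (prF x) _ x (fun p => rfl) (fun k => ?_)
      simp only [fieldOne]
      split_ifs
      · exact le_refl _
      · exact zero_le
    · intro g
      have h1 := hpr (chi (prF g)) ⟨e (prF g), e (prF g)⁻¹, hce.inv (prF g), fun β => by
        have := hce.inv (prF g)⁻¹ β
        rwa [inv_inv] at this⟩
      exact h1
    · intro g ω
      refine Prod.ext ?_ ?_
      · simp only [map_inv]
        exact inv_mul_cancel_right _ _
      · funext β
        simp only [map_inv]
        rw [hce.inv]
    · intro g ω x i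
      rcases i with p | k
      · simp only [fieldOne, rateA, map_mul, mul_assoc]
      · simp only [fieldOne, map_mul]
        rw [hce.equi]
  · refine ⟨hpos, ?_, ?_, ?_, ?_, ?_, ?_⟩
    · intro ω x i
      rcases i with p | k
      · simp only [fieldTwo, map_mul, prF_inl, mul_one]
      · simp only [fieldTwo, map_mul, prF_inr, hgfsq, or_comm]
    · intro x i
      rcases i with p | k
      · exact meas_rateA ρ _ _
      · simp only [fieldTwo]
        exact Measurable.ite ((meas_coord _).union (meas_coord _)) measurable_const measurable_const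
    · intro ω x
      refine tot_le_aux ρ ω (prF x) _ x (fun p => rfl) (fun k => ?_)
      simp only [fieldTwo]
      split_ifs
      · exact le_refl _
      · exact zero_le
    · intro g
      exact hpr (chi (prF g)) (Equiv.mulLeft (prF g))
    · intro g ω
      refine Prod.ext ?_ ?_
      · simp only [map_inv]
        exact inv_mul_cancel_right _ _
      · funext β
        simp only [map_inv, inv_mul_cancel_left]
    · intro g ω x i
      rcases i with p | k
      · simp only [fieldTwo, rateA, map_mul, mul_assoc]
      · simp only [fieldTwo, map_mul, mul_assoc]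

end Pool.Agent.Q63.RF
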