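import Pool.Agent.Q63.RF.St

/-!
# Project RF: the free product is a tree
-/

set_option autoImplicit false

namespace Pool.Agent.Q63.RF

/-- lists without equal neighbours -/
def RL (d : ℕ) : Type := {L : List (Fin d) // L.IsChain (· ≠ ·)}

/-- the action of a generator on lists -/
def pushL {d : ℕ} (k : Fin d) (L : List (Fin d)) : List (Fin d) :=
  if L.head? = some k then L.tail else k :: L

theorem pushL_chain {d : ℕ} (k : Fin d) (L : List (Fin d)) (h : L.IsChain (· ≠ ·)) :
    (pushL k L).IsChain (· ≠ ·) := by
  unfold pushL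
  cases L with
  | nil => simp
  | cons a L =>
    by_cases hk : a = k
    · rw [if_pos (by rw [hk]; rfl)]
      exact h.tail
    · rw [if_neg (by simpa using hk)]
      exact List.IsChain.cons_cons (Ne.symm hk) h

theorem pushL_pos {d : ℕ} (k : Fin d) (L : List (Fin d)) : pushL k (k :: L) = L := by
  unfold pushL
  rw [if_pos (by simp), List.tail_cons]

theorem pushL_neg {d : ℕ} {k : Fin d} {L : List (Fin d)} (h : ¬ L.head? = some k) :
    pushL k L = k :: L := by
  unfold pushL
  rw [if_neg h]

theorem pushL_pushL {d : ℕ} (k : Fin d) (L : List (Fin d)) (h : L.IsChain (· ≠ ·)) :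
    pushL k (pushL k L) = L := by
  cases L with
  | nil => rw [pushL_neg (L := []) (by simp), pushL_pos]
  | cons a L =>
    by_cases hk : a = k
    · subst hk
      rw [pushL_pos, pushL_neg]
      cases L with
      | nil => simp
      | cons b L =>
        have h1 : a ≠ b := (List.isChain_cons_cons.1 h).1
        simpa using Ne.symm h1
    · rw [pushL_neg (L := a :: L) (by simpa using hk), pushL_pos]

/-- the action of a generator -/
def pushR {d : ℕ} (k : Fin d) : Equiv.Perm (RL d) where
  toFun L := ⟨pushL k L.1, pushL_chain k L.1 L.2⟩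
  invFun L := ⟨pushL k L.1, pushL_chain k L.1 L.2⟩
  left_inv L := Subtype.ext (pushL_pushL k L.1 L.2)
  right_inv L := Subtype.ext (pushL_pushL k L.1 L.2)

theorem liftable_push (d : ℕ) : (MF d).IsLiftable (fun k : Fin d => pushR k) := by
  intro k l
  change (pushR k * pushR l) ^ (if k = l then 1 else 0) = 1
  by_cases h : k = l
  · rw [if_pos h, h, pow_one]
    exact Equiv.ext fun L => Subtype.ext (pushL_pushL l L.1 L.2)
  · rw [if_neg h, pow_zero]

/-- the action of the free product on lists -/
noncomputable def actF (d : ℕ) : FG d →* Equiv.Perm (RL d) :=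
  (csF d).lift ⟨_, liftable_push d⟩

/-- the normal form -/
noncomputable def nfF {d : ℕ} (β : FG d) : List (Fin d) := (actF d β⁻¹ ⟨[], by simp⟩).1

theorem nfF_chain {d : ℕ} (β : FG d) : (nfF β).IsChain (· ≠ ·) :=
  (actF d β⁻¹ ⟨[], by simp⟩).2

theorem nfF_one {d : ℕ} : nfF (1 : FG d) = [] := by
  unfold nfF
  rw [inv_one, map_one]
  rfl

theorem gf_inv {d : ℕ} (k : Fin d) : (gf k)⁻¹ = gf k := (csF d).inv_simple k

theorem gf_sq {d : ℕ} (k : Fin d) : gf k * gf k = 1 := (csF d).simple_mul_simple_self k

theorem actF_gf {d : ℕ} (k : Fin d) : actF d (gf k) = pushR k :=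
  (csF d).lift_apply_simple (liftable_push d) k

theorem nfF_mul {d : ℕ} (β : FG d) (k : Fin d) : nfF (β * gf k) = pushL k (nfF β) := by
  unfold nfF
  rw [mul_inv_rev, gf_inv, map_mul, actF_gf]
  rfl

theorem nfF_gf {d : ℕ} (k : Fin d) : nfF (gf k) = [k] := by
  rw [← one_mul (gf k), nfF_mul, nfF_one]
  rfl

/-- the endpoint of an edge far from the identity -/
noncomputable def cF {d : ℕ} (β : FG d) (k : Fin d) : FG d :=
  if (nfF β).head? = some k then β else β * gf k

theorem head_cF {d : ℕ} (β : FG d) (k : Fin d) : (nfF (cF β k)).head? = some k := by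
  unfold cF
  by_cases h : (nfF β).head? = some k
  · rw [if_pos h, h]
  · rw [if_neg h, nfF_mul, pushL, if_neg h, List.head?_cons]

theorem cF_symm {d : ℕ} (β : FG d) (k : Fin d) : cF (β * gf k) k = cF β k := by
  unfold cF
  by_cases h : (nfF β).head? = some k
  · rw [if_pos h, if_neg, mul_assoc, gf_sq, mul_one]
    rw [nfF_mul, pushL, if_pos h]
    have h1 := nfF_chain β
    generalize nfF β = L at h h1
    cases L with
    | nil => simp at h
    | cons a L =>
      have ha : a = k := by simpa using h
      rw [List.tail_cons]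
      cases L with
      | nil => simp
      | cons b L =>
        have h2 : a ≠ b := (List.isChain_cons_cons.1 h1).1
        simp only [List.head?_cons, Option.some.injEq]
        rw [← ha]
        exact Ne.symm h2
  · rw [if_neg h, if_pos]
    rw [nfF_mul, pushL, if_neg h, List.head?_cons]

theorem cF_mem {d : ℕ} (β : FG d) (k : Fin d) : cF β k = β ∨ cF β k = β * gf k := by
  unfold cF
  split_ifs
  · left; rfl
  · right; rfl

/-- the action on the edges -/
noncomputable def eF {d : ℕ} (g β : FG d) : FG d :=
  match (nfF β).head? with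
  | none => β
  | some k => cF (g * β) k

theorem eF_some {d : ℕ} {β : FG d} {k : Fin d} (h : (nfF β).head? = some k) (g : FG d) :
    eF g β = cF (g * β) k := by
  unfold eF
  rw [h]

theorem cF_equi {d : ℕ} (g β : FG d) (k : Fin d) : cF (g * β) k = eF g (cF β k) := by
  rw [eF_some (head_cF β k)]
  rcases cF_mem β k with h | h
  · rw [h]
  · rw [h, ← mul_assoc, cF_symm]

theorem eF_inv {d : ℕ} (g β : FG d) : eF g⁻¹ (eF g β) = β := by
  cases h : (nfF β).head? with
  | none =>
    have h1 : ∀ g, eF g β = β := by
      intro g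
      unfold eF
      rw [h]
    rw [h1, h1]
  | some k =>
    have h1 : cF β k = β := by
      unfold cF
      rw [if_pos h]
    rw [eF_some h, eF_some (head_cF (g * β) k)]
    rcases cF_mem (g * β) k with h2 | h2
    · rw [h2, inv_mul_cancel_left, h1]
    · rw [h2, mul_assoc, inv_mul_cancel_left, cF_symm, h1]

theorem chi_gf {d : ℕ} (k : Fin d) : chi (gf k) = -1 :=
  (csF d).lift_apply_simple liftable_chi k

/-- **S_TREE.** -/
theorem tree : S_TREE := by
  intro d
  refine ⟨cF, eF, ⟨cF_symm, cF_mem, cF_equi, eF_inv, ?_, ?_⟩, ?_, ?_⟩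
  · intro k
    unfold cF
    rw [if_neg (by rw [nfF_one]; simp), one_mul]
  · intro k j hj
    unfold cF
    rw [if_neg]
    rw [nfF_gf]
    simpa using Ne.symm hj
  · intro k l h
    have := congrArg nfF h
    rw [nfF_gf, nfF_gf] at this
    simpa using this
  · intro k j l h
    have := congrArg chi h
    rw [map_mul, chi_gf, chi_gf, chi_gf] at this
    revert this
    decide

end Pool.Agent.Q63.RF
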